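import Pool.Agent.H98.KS.Targets1

/-!
# MP_ff41bc_an, module LB: the moment estimate of range B
helper97
-/

open scoped BigOperators
open Pool.Agent.H98.KS MeasureTheory

noncomputable section

namespace Pool.Agent.H97.KS

open Classical in
/-- more than `d - t0` coordinate sums are large -/
def Ev (k L n t0 d : ℕ) (c : ℝ) (τ : Fin n → ℝ) (y : Fin (n + 1) → Fin d → ℤ) : Prop :=
  d < t0 + (Finset.univ.filter (fun i : Fin d => c ≤ ‖Sx k L n τ (fun j => y j i)‖)).card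

lemma continuous_ee : Continuous ee := by
  unfold ee
  fun_prop

lemma norm_ee (x : ℝ) : ‖ee x‖ = 1 := by
  unfold ee
  have h : (2 * (Real.pi : ℂ) * (x : ℂ) * Complex.I) = ((2 * Real.pi * x : ℝ) : ℂ) * Complex.I := by
    push_cast
    ring
  rw [h, Complex.norm_exp_ofReal_mul_I]

lemma continuous_Sx (k L n : ℕ) (u : Fin (n + 1) → ℤ) : Continuous (fun τ => Sx k L n τ u) := by
  unfold Sx
  refine continuous_finsetSum _ (fun x _ => continuous_ee.comp ?_)
  fun_prop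

lemma norm_Sx_le (k L n : ℕ) (τ : Fin n → ℝ) (u : Fin (n + 1) → ℤ) : ‖Sx k L n τ u‖ ≤ L := by
  unfold Sx
  refine (norm_sum_le _ _).trans ?_
  simp [norm_ee]

lemma measurableSet_Ev (k L n t0 d : ℕ) (c : ℝ) (y : Fin (n + 1) → Fin d → ℤ) :
    MeasurableSet {τ | Ev k L n t0 d c τ y} := by
  classical
  unfold Ev
  simp only [Finset.card_filter]
  refine measurableSet_lt measurable_const (Measurable.const_add ?_ _)
  refine Finset.measurable_fun_sum _ (fun i _ => ?_)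
  refine Measurable.ite ?_ measurable_const measurable_const
  exact measurableSet_le measurable_const (continuous_Sx k L n _).norm.measurable

/-- the sign vectors -/
def sg (n : ℕ) : Finset (Fin (n + 1) → ℤ) := Fintype.piFinset (fun _ => {1, -1})

lemma card_sg (n : ℕ) : (sg n).card = 2 ^ (n + 1) := by
  unfold sg
  simp [Fintype.card_piFinset]

lemma mem_sg {n : ℕ} {s : Fin (n + 1) → ℤ} : s ∈ sg n ↔ ∀ j, s j = 1 ∨ s j = -1 := by
  unfold sg
  simp [Fintype.mem_piFinset]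

open Classical in
lemma few (hSG : T_SG) (hPT : T_PT) (hCT : T_CT) {k n A t d L : ℕ} {N H T : ℝ} (hk : 3 ≤ k)
    (hW : Weyl2 k A) (hL : 1 ≤ L) (hC : CondB k n A t d L N H T)
    (δ : ℝ) (hδ0 : 0 < δ) (hδ1 : δ ≤ 1) (hδ : (1 / δ) ^ A = H)
    (τ : Fin n → ℝ) (hτ : ∀ i, 0 ≤ τ i ∧ τ i ≤ 1) (j : Fin n)
    (hj : τ j ∉ T1 ⌊12 * k * (A * H) ^ 2 / (1 / (N * H))⌋₊
      (4 * (A * H) * (A * H / (L : ℝ) ^ (k - 1)) / (1 / (N * H) * L)))
    (y : Fin (n + 1) → Fin d → ℤ) :
    (((bx d (-(2 * (L : ℤ))) (3 * L)).filter (fun g =>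
      Ev k L n (A * t) d ((2 : ℝ) ^ (n + 1) * (δ * L)) τ (Function.update y j.succ g))).card : ℝ)
      ≤ 2 ^ d * (5 * (L : ℝ) + 1) ^ (A * t) * (2 ^ (n + 1) * ((L : ℝ) / (N * H))) ^ (d - A * t) := by
  obtain ⟨hAt, hN, hH, hT, hc1, hc2, hc3, hc4, hc5⟩ := hC
  have hA : 1 ≤ A := hW.1
  have hA' : (1 : ℝ) ≤ A := by exact_mod_cast hA
  have hL' : (1 : ℝ) ≤ L := by exact_mod_cast hL
  have hNH : 1 ≤ N * H := one_le_mul_of_one_le_of_one_le hN hH
  have hNH0 : 0 < N * H := by linarith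
  have hAH : 1 ≤ A * H := one_le_mul_of_one_le_of_one_le hA' hH
  have hLk1 : (0 : ℝ) < (L : ℝ) ^ (k - 1) := by positivity
  -- the sets `Z i`
  set β : (Fin (n + 1) → ℤ) → Fin d → ℝ := fun s i =>
    ∑ j' : Fin n, (τ j' * ((s j'.succ : ℝ) * ((Function.update (fun l => y l i) j.succ 0) j'.succ : ℤ))
      - τ j' * ((s 0 : ℝ) * y 0 i)) with hβ
  set W : (Fin (n + 1) → ℤ) → Fin d → Finset ℤ := fun s i =>
    (Finset.Icc (-(2 * (L : ℤ))) (3 * L)).filter (fun h => ∃ q : ℕ, 1 ≤ q ∧ (q : ℝ) ≤ A * H ∧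
      dn (q * ((k : ℝ) * (τ j * ((s j.succ : ℝ) * h) + β s i))) ≤ A * H / (L : ℝ) ^ (k - 1)) with hWdef
  set Z : Fin d → Finset ℤ := fun i => (sg n).biUnion (fun s => W s i) with hZ
  have hWcard : ∀ s ∈ sg n, ∀ i, ((W s i).card : ℝ) ≤ L / (N * H) := by
    intro s hs i
    by_contra hcon
    push Not at hcon
    apply hj
    have hs1 : s j.succ = 1 ∨ s j.succ = -1 := mem_sg.1 hs _
    have hinj : Function.Injective (fun h : ℤ => s j.succ * h) := by
      intro a b hab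
      simp only at hab
      rcases hs1 with h | h <;> rw [h] at hab <;> linarith
    obtain ⟨Q, hQ1, hQ2, hQ3⟩ := hPT k L (A * H) (A * H / (L : ℝ) ^ (k - 1)) (1 / (N * H)) (τ j) (β s i)
      ((W s i).image (fun h => s j.succ * h)) (by omega) hL' hAH (by positivity) (by positivity)
      (by rw [div_le_one hNH0]; exact hNH) (by
        intro h hh
        obtain ⟨a, ha, rfl⟩ := Finset.mem_image.1 hh
        have ha' := (Finset.mem_Icc.1 (Finset.mem_filter.1 ha).1)
        have h1 : |s j.succ * a| ≤ 3 * (L : ℤ) := by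
          rcases hs1 with h | h <;> rw [h, abs_le] <;> constructor <;> nlinarith [ha'.1, ha'.2]
        have h2 : ((|s j.succ * a| : ℤ) : ℝ) ≤ ((3 * (L : ℤ) : ℤ) : ℝ) := by exact_mod_cast h1
        push_cast at h2 ⊢
        exact h2) (by
        rw [Finset.card_image_of_injective _ hinj]
        calc 1 / (N * H) * L = L / (N * H) := by ring
          _ ≤ _ := hcon.le) (by
        intro h hh
        obtain ⟨a, ha, rfl⟩ := Finset.mem_image.1 hh
        obtain ⟨q, hq1, hq2, hq3⟩ := (Finset.mem_filter.1 ha).2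
        refine ⟨q, hq1, hq2, ?_⟩
        push_cast
        exact hq3) (by
        rw [le_div_iff₀ hNH0]
        calc 192 * (A * H) * (A * H / (L : ℝ) ^ (k - 1)) * (N * H)
            = (192 * (A : ℝ) ^ 2 * H ^ 3 * N) / (L : ℝ) ^ (k - 1) := by ring
          _ ≤ 1 := by rw [div_le_one hLk1]; exact hc1) (by
        rw [show 1 / (N * H) * (L : ℝ) = L / (N * H) by ring, le_div_iff₀ hNH0]
        calc 2 * (A * H) * (N * H) = 2 * (A : ℝ) * H ^ 2 * N := by ring
          _ ≤ L := hc2) (by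
        have e : (L : ℝ) ^ (k - 1) = (L : ℝ) ^ (k - 2) * L := by
          rw [← pow_succ]; congr 1; omega
        have : 96 * (A * H / (L : ℝ) ^ (k - 1) * L) = 96 * A * H / (L : ℝ) ^ (k - 2) := by
          rw [e]; field_simp
        rw [this, div_le_one (by positivity)]
        exact hc3)
    refine ⟨(hτ j).1, (hτ j).2, Q, hQ1, Nat.le_floor hQ2, hQ3⟩
  have hw1 : (1 : ℝ) ≤ 2 ^ (n + 1) * ((L : ℝ) / (N * H)) := by
    have h1 : (1 : ℝ) ≤ L / (N * H) := by
      rw [le_div_iff₀ hNH0]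
      nlinarith [mul_nonneg (sub_nonneg.2 hAH) hNH0.le]
    have h2 : (1 : ℝ) ≤ 2 ^ (n + 1) := one_le_pow₀ (by norm_num)
    exact one_le_mul_of_one_le_of_one_le h2 h1
  have hZcard : ∀ i, ((Z i).card : ℝ) ≤ 2 ^ (n + 1) * ((L : ℝ) / (N * H)) := by
    intro i
    have h1 : ((Z i).card : ℝ) ≤ ∑ s ∈ sg n, ((W s i).card : ℝ) := by
      exact_mod_cast Finset.card_biUnion_le
    refine h1.trans ((Finset.sum_le_sum (fun s hs => hWcard s hs i)).trans ?_)
    rw [Finset.sum_const, card_sg, nsmul_eq_mul]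
    push_cast
    exact le_rfl
  have hmem : ∀ (g : Fin d → ℤ), g ∈ bx d (-(2 * (L : ℤ))) (3 * L) → ∀ i,
      (2 : ℝ) ^ (n + 1) * (δ * L) ≤ ‖Sx k L n τ (fun l => (Function.update y j.succ g) l i)‖ → g i ∈ Z i := by
    intro g hg i hi
    obtain ⟨s, hs, q, hq1, hq2, hq3⟩ := hSG k A (by omega) hW L n δ τ _ hL hδ0 hδ1 hi
    rw [hδ] at hq2 hq3
    simp only [hZ, Finset.mem_biUnion]
    refine ⟨s, mem_sg.2 hs, ?_⟩
    simp only [hWdef, Finset.mem_filter]
    refine ⟨by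
      unfold bx at hg
      exact (Fintype.mem_piFinset.1 hg) i, q, hq1, hq2, ?_⟩
    have e : ∑ j' : Fin n, (τ j' * ((s j'.succ : ℝ) * ((Function.update y j.succ g) j'.succ i : ℤ))
        - τ j' * ((s 0 : ℝ) * ((Function.update y j.succ g) 0 i : ℤ)))
        = τ j * ((s j.succ : ℝ) * (g i : ℤ)) + β s i := by
      have h0 : (Function.update y j.succ g) 0 i = y 0 i := by
        rw [Function.update_of_ne (Fin.succ_ne_zero j).symm]
      rw [h0, hβ]
      simp only
      rw [← Finset.add_sum_erase _ _ (Finset.mem_univ j), ← Finset.add_sum_erase _ _ (Finset.mem_univ j)]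
      have h1 : ∑ j' ∈ Finset.univ.erase j,
          (τ j' * ((s j'.succ : ℝ) * ((Function.update y j.succ g) j'.succ i : ℤ)) - τ j' * ((s 0 : ℝ) * (y 0 i : ℤ)))
          = ∑ j' ∈ Finset.univ.erase j,
          (τ j' * ((s j'.succ : ℝ) * ((Function.update (fun l => y l i) j.succ 0) j'.succ : ℤ))
            - τ j' * ((s 0 : ℝ) * y 0 i)) := by
        refine Finset.sum_congr rfl (fun j' hj' => ?_)
        have hne : j'.succ ≠ j.succ := fun h => (Finset.mem_erase.1 hj').1 (Fin.succ_injective _ h)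
        rw [Function.update_of_ne hne, Function.update_of_ne hne]
      rw [h1]
      simp only [Function.update_self]
      push_cast
      ring
    rw [e] at hq3
    exact hq3
  have hB : ((Finset.Icc (-(2 * (L : ℤ))) (3 * L)).card : ℝ) = 5 * (L : ℝ) + 1 := by
    rw [Int.card_Icc]
    have : (3 * (L : ℤ) + 1 - -(2 * (L : ℤ))).toNat = 5 * L + 1 := by omega
    rw [this]
    push_cast
    ring
  have hct := hCT d (A * t) (Finset.Icc (-(2 * (L : ℤ))) (3 * L)) Z _ hAt hw1 hZcard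
  rw [hB] at hct
  refine le_trans ?_ hct
  refine Nat.cast_le.2 (Finset.card_le_card ?_)
  intro g hg
  rw [Finset.mem_filter] at hg ⊢
  refine ⟨hg.1, ?_⟩
  have h2 := hg.2
  unfold Ev at h2
  refine lt_of_lt_of_le h2 (Nat.add_le_add_left (Finset.card_le_card ?_) _)
  intro i hi
  rw [Finset.mem_filter] at hi ⊢
  exact ⟨hi.1, hmem g hg.1 i hi.2⟩

open Classical in
lemma vol_good (hOR : T_OR) (hMS : T_MS) {k n t0 d L : ℕ} (ht0 : t0 ≤ d) (c ω η : ℝ) (Qm : ℕ)
    (hη : 0 ≤ η) (hω : 0 ≤ ω) (hc : 0 ≤ c) (y : Fin (n + 1) → Fin d → ℤ)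
    (hy : volume {τ : Fin n → ℝ | (∀ i, 0 ≤ τ i ∧ τ i ≤ 1) ∧ Ev k L n t0 d c τ y ∧ ∃ j, τ j ∉ T1 Qm η}
      ≤ ENNReal.ofReal ω) :
    (((cell d L).filter (fun x => ∀ j, pw k (x - y j) = pw k (x - y 0))).card : ℝ)
      ≤ (L : ℝ) ^ (d - t0) * c ^ t0 + (L : ℝ) ^ d * ω + (L : ℝ) ^ d * (4 * Qm * η) ^ n := by
  refine (hOR k d L n y).trans ?_
  set Bd : Set (Fin n → ℝ) :=
    {τ : Fin n → ℝ | (∀ i, 0 ≤ τ i ∧ τ i ≤ 1) ∧ Ev k L n t0 d c τ y ∧ ∃ j, τ j ∉ T1 Qm η} with hBd
  set Tn : Set (Fin n → ℝ) := Set.pi Set.univ (fun _ => T1 Qm η) with hTn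
  obtain ⟨hT1m, hT1v⟩ := hMS Qm η hη
  have hL0 : (0 : ℝ) ≤ L := Nat.cast_nonneg _
  have hTnm : MeasurableSet Tn := MeasurableSet.univ_pi (fun _ => hT1m)
  have hBdm : MeasurableSet Bd := by
    have e : Bd = {τ : Fin n → ℝ | ∀ i, 0 ≤ τ i ∧ τ i ≤ 1} ∩ ({τ | Ev k L n t0 d c τ y} ∩
        {τ : Fin n → ℝ | ∃ j, τ j ∉ T1 Qm η}) := by
      ext τ
      simp [hBd]
    rw [e]
    refine MeasurableSet.inter ?_ (MeasurableSet.inter (measurableSet_Ev _ _ _ _ _ _ _) ?_)
    · simp only [Set.ofPred_forall]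
      refine MeasurableSet.iInter (fun i => ?_)
      exact (measurableSet_le measurable_const (measurable_pi_apply i)).inter
        (measurableSet_le (measurable_pi_apply i) measurable_const)
    · simp only [Set.ofPred_exists]
      refine MeasurableSet.iUnion (fun i => ?_)
      exact (hT1m.preimage (measurable_pi_apply i)).compl
  have hvolI : volume (Set.Icc (0 : Fin n → ℝ) 1) = 1 := by
    rw [Real.volume_Icc_pi]
    simp
  have : IsFiniteMeasure (volume.restrict (Set.Icc (0 : Fin n → ℝ) 1)) := by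
    constructor
    rw [Measure.restrict_apply_univ, hvolI]
    exact ENNReal.one_lt_top
  have hfI : Integrable (fun τ : Fin n → ℝ => ∏ i, ‖Sx k L n τ (fun j => y j i)‖)
      (volume.restrict (Set.Icc (0 : Fin n → ℝ) 1)) := by
    refine ContinuousOn.integrableOn_compact isCompact_Icc ?_
    exact (continuous_finsetProd _ (fun i _ => (continuous_Sx k L n _).norm)).continuousOn
  have hB1 : Integrable (Bd.indicator (fun _ => (1 : ℝ))) (volume.restrict (Set.Icc (0 : Fin n → ℝ) 1)) :=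
    (integrable_const (1 : ℝ)).indicator hBdm
  have hT1' : Integrable (Tn.indicator (fun _ => (1 : ℝ))) (volume.restrict (Set.Icc (0 : Fin n → ℝ) 1)) :=
    (integrable_const (1 : ℝ)).indicator hTnm
  have hgI : Integrable (fun τ : Fin n → ℝ => (L : ℝ) ^ (d - t0) * c ^ t0
      + (L : ℝ) ^ d * Bd.indicator (fun _ => (1 : ℝ)) τ + (L : ℝ) ^ d * Tn.indicator (fun _ => (1 : ℝ)) τ)
      (volume.restrict (Set.Icc (0 : Fin n → ℝ) 1)) :=
    ((integrable_const _).add (hB1.const_mul _)).add (hT1'.const_mul _)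
  have hprodle : ∀ τ : Fin n → ℝ, ∏ i, ‖Sx k L n τ (fun j => y j i)‖ ≤ (L : ℝ) ^ d := by
    intro τ
    calc ∏ i : Fin d, ‖Sx k L n τ (fun j => y j i)‖ ≤ ∏ i : Fin d, (L : ℝ) :=
          Finset.prod_le_prod (fun _ _ => norm_nonneg _) (fun i _ => norm_Sx_le _ _ _ _ _)
      _ = (L : ℝ) ^ d := by simp
  have hpt : ∀ τ ∈ Set.Icc (0 : Fin n → ℝ) 1, ∏ i, ‖Sx k L n τ (fun j => y j i)‖
      ≤ (L : ℝ) ^ (d - t0) * c ^ t0
      + (L : ℝ) ^ d * Bd.indicator (fun _ => (1 : ℝ)) τ + (L : ℝ) ^ d * Tn.indicator (fun _ => (1 : ℝ)) τ := by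
    intro τ hτ
    have hBn : (0 : ℝ) ≤ Bd.indicator (fun _ => (1 : ℝ)) τ := Set.indicator_nonneg (fun _ _ => zero_le_one) _
    have hTn0 : (0 : ℝ) ≤ Tn.indicator (fun _ => (1 : ℝ)) τ := Set.indicator_nonneg (fun _ _ => zero_le_one) _
    have hc0 : (0 : ℝ) ≤ (L : ℝ) ^ (d - t0) * c ^ t0 := by positivity
    have hLd : (0 : ℝ) ≤ (L : ℝ) ^ d := by positivity
    by_cases hE : Ev k L n t0 d c τ y
    · by_cases hj : ∃ j, τ j ∉ T1 Qm η
      · have hmem : τ ∈ Bd := ⟨fun i => ⟨hτ.1 i, hτ.2 i⟩, hE, hj⟩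
        rw [Set.indicator_of_mem hmem]
        have := hprodle τ
        nlinarith [mul_nonneg hLd hTn0]
      · push Not at hj
        have hmem : τ ∈ Tn := fun i _ => hj i
        rw [Set.indicator_of_mem hmem]
        have := hprodle τ
        nlinarith [mul_nonneg hLd hBn]
    · have hsmall : ∏ i, ‖Sx k L n τ (fun j => y j i)‖ ≤ (L : ℝ) ^ (d - t0) * c ^ t0 := by
        unfold Ev at hE
        push Not at hE
        set S : Finset (Fin d) := Finset.univ.filter (fun i : Fin d => c ≤ ‖Sx k L n τ (fun j => y j i)‖) with hS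
        have hScard : t0 ≤ Sᶜ.card := by
          rw [Finset.card_compl, Fintype.card_fin]
          omega
        obtain ⟨U, hU, hUc⟩ := Finset.exists_subset_card_eq hScard
        rw [← Finset.prod_compl_mul_prod U]
        refine mul_le_mul ?_ ?_ (Finset.prod_nonneg (fun _ _ => norm_nonneg _)) (by positivity)
        · calc ∏ i ∈ Uᶜ, ‖Sx k L n τ (fun j => y j i)‖ ≤ ∏ i ∈ Uᶜ, (L : ℝ) :=
                Finset.prod_le_prod (fun _ _ => norm_nonneg _) (fun i _ => norm_Sx_le _ _ _ _ _)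
            _ = (L : ℝ) ^ (d - t0) := by
                rw [Finset.prod_const, Finset.card_compl, Fintype.card_fin, hUc]
        · calc ∏ i ∈ U, ‖Sx k L n τ (fun j => y j i)‖ ≤ ∏ i ∈ U, c := by
                refine Finset.prod_le_prod (fun _ _ => norm_nonneg _) (fun i hi => ?_)
                have h1 := hU hi
                rw [Finset.mem_compl, hS, Finset.mem_filter] at h1
                by_contra hcon
                push Not at hcon
                exact h1 ⟨Finset.mem_univ _, hcon.le⟩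
            _ = c ^ t0 := by rw [Finset.prod_const, hUc]
      nlinarith [mul_nonneg hLd hTn0, mul_nonneg hLd hBn]
  refine (setIntegral_mono_on hfI hgI measurableSet_Icc hpt).trans ?_
  have hs1 : Integrable (fun τ : Fin n → ℝ => (L : ℝ) ^ (d - t0) * c ^ t0
      + (L : ℝ) ^ d * Bd.indicator (fun _ => (1 : ℝ)) τ)
      (volume.restrict (Set.Icc (0 : Fin n → ℝ) 1)) := (integrable_const _).add (hB1.const_mul _)
  have hI0 : ∫ τ in Set.Icc (0 : Fin n → ℝ) 1, (L : ℝ) ^ (d - t0) * c ^ t0 = (L : ℝ) ^ (d - t0) * c ^ t0 := by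
    rw [setIntegral_const]
    simp [Measure.real, hvolI]
  rw [integral_add hs1 (hT1'.const_mul _),
    integral_add (integrable_const _) (hB1.const_mul _), hI0, integral_const_mul, integral_const_mul]
  have hI1 : ∫ τ in Set.Icc (0 : Fin n → ℝ) 1, Bd.indicator (fun _ => (1 : ℝ)) τ ≤ ω := by
    rw [integral_indicator hBdm, Measure.restrict_restrict hBdm, setIntegral_const, smul_eq_mul, mul_one]
    refine ENNReal.toReal_le_of_le_ofReal hω ?_
    exact (measure_mono Set.inter_subset_left).trans hy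
  have hI2 : ∫ τ in Set.Icc (0 : Fin n → ℝ) 1, Tn.indicator (fun _ => (1 : ℝ)) τ ≤ (4 * Qm * η) ^ n := by
    rw [integral_indicator hTnm, Measure.restrict_restrict hTnm, setIntegral_const, smul_eq_mul, mul_one]
    have h0 : (0 : ℝ) ≤ 4 * Qm * η := by positivity
    refine ENNReal.toReal_le_of_le_ofReal (by positivity) ?_
    refine (measure_mono Set.inter_subset_left).trans ?_
    rw [hTn, volume_pi_pi, Finset.prod_const, Finset.card_univ, Fintype.card_fin, ENNReal.ofReal_pow h0]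
    exact pow_le_pow_left' hT1v n
  have hLd : (0 : ℝ) ≤ (L : ℝ) ^ d := by positivity
  have h1 := mul_le_mul_of_nonneg_left hI1 hLd
  have h2 := mul_le_mul_of_nonneg_left hI2 hLd
  linarith

theorem ks_LB (hOR : T_OR) (hSG : T_SG) (hPT : T_PT) (hMS : T_MS) (hCT : T_CT) (hAB : T_AB) : T_LB := by
  intro k n A t d L N H T hk hn hW ht hL hC F X hF hX hrich
  classical
  have hC' := hC
  obtain ⟨hAt, hN, hH, hT, hc1, hc2, hc3, hc4, hc5⟩ := hC
  have hA : 1 ≤ A := hW.1
  have hA' : (1 : ℝ) ≤ A := by exact_mod_cast hA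
  have hL' : (1 : ℝ) ≤ L := by exact_mod_cast hL
  have hH0 : 0 < H := by linarith
  have hNH : 1 ≤ N * H := one_le_mul_of_one_le_of_one_le hN hH
  have hNH0 : 0 < N * H := by linarith
  have hAH : 1 ≤ A * H := one_le_mul_of_one_le_of_one_le hA' hH
  set δ : ℝ := H ^ (-(1 / (A : ℝ))) with hδdef
  have hδ0 : 0 < δ := Real.rpow_pos_of_pos hH0 _
  have hδ1 : δ ≤ 1 := Real.rpow_le_one_of_one_le_of_nonpos hH (by
    rw [neg_nonpos]; positivity)
  have hδA : δ ^ A = 1 / H := by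
    rw [hδdef, ← Real.rpow_natCast, ← Real.rpow_mul hH0.le]
    have : -(1 / (A : ℝ)) * (A : ℕ) = -1 := by
      field_simp
    rw [this, Real.rpow_neg_one, one_div]
  have hδ : (1 / δ) ^ A = H := by
    rw [one_div, inv_pow, hδA, one_div, inv_inv]
  set Qm : ℕ := ⌊12 * k * (A * H) ^ 2 / (1 / (N * H))⌋₊ with hQm
  set η : ℝ := 4 * (A * H) * (A * H / (L : ℝ) ^ (k - 1)) / (1 / (N * H) * L) with hη
  set c : ℝ := (2 : ℝ) ^ (n + 1) * (δ * L) with hc
  have hη0 : 0 ≤ η := by positivity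
  have hc0 : 0 ≤ c := by positivity
  set M : ℝ := (L : ℝ) ^ (k * (n + 1)) with hM
  have hM0 : 0 < M := by positivity
  set ω : ℝ := 1 / M with hω
  have hω0 : 0 < ω := by positivity
  choose! l hl using hrich
  set G : (Fin d → ℤ) → Finset (Fin d → ℤ) := fun x => F.filter (fun y => pw k (x - y) = l x) with hG
  have hGc : ∀ x ∈ X, T ≤ (G x).card := fun x hx => hl x hx
  set good : (Fin (n + 1) → Fin d → ℤ) → Prop := fun y =>
    volume {τ : Fin n → ℝ | (∀ i, 0 ≤ τ i ∧ τ i ≤ 1) ∧ Ev k L n (A * t) d c τ y ∧ ∃ j, τ j ∉ T1 Qm η}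
      ≤ ENNReal.ofReal ω with hgood
  have h1 : ∀ x ∈ X, T ^ (n + 1) / 2 ≤
      (((Fintype.piFinset (fun _ : Fin (n + 1) => G x)).filter good).card : ℝ) := by
    intro x hx
    have hTG : (0 : ℝ) ≤ (G x).card := Nat.cast_nonneg _
    have hab := hAB d n (G x) (fun τ y => Ev k L n (A * t) d c τ y) (T1 Qm η) (1 / (2 * M)) ω
      (by positivity) hω0 (hMS Qm η hη0).1 (fun y => measurableSet_Ev _ _ _ _ _ _ _) (by
        intro τ hτ j hj y
        have hfew := few hSG hPT hCT hk hW hL hC' δ hδ0 hδ1 hδ τ hτ j hj y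
        have hsub : (((G x).filter (fun g => Ev k L n (A * t) d c τ (Function.update y j.succ g))).card : ℝ)
            ≤ (((bx d (-(2 * (L : ℤ))) (3 * L)).filter (fun g =>
              Ev k L n (A * t) d ((2 : ℝ) ^ (n + 1) * (δ * L)) τ (Function.update y j.succ g))).card : ℝ) := by
          refine Nat.cast_le.2 (Finset.card_le_card ?_)
          refine Finset.filter_subset_filter _ ?_
          exact (Finset.filter_subset _ _).trans hF
        refine hsub.trans (hfew.trans (hc4.trans ?_))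
        rw [one_div, div_eq_mul_inv, mul_comm]
        exact mul_le_mul_of_nonneg_left (hGc x hx) (by positivity))
    have hθω : 1 / (2 * M) / ω = 1 / 2 := by
      rw [hω]
      field_simp
    rw [hθω] at hab
    have hcardsum := Finset.card_filter_add_card_filter_not
      (s := Fintype.piFinset (fun _ : Fin (n + 1) => G x)) good
    have hpi : ((Fintype.piFinset (fun _ : Fin (n + 1) => G x)).card : ℝ) = ((G x).card : ℝ) ^ (n + 1) := by
      rw [Fintype.card_piFinset]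
      simp
    have hcs : (((Fintype.piFinset (fun _ : Fin (n + 1) => G x)).filter good).card : ℝ)
        + (((Fintype.piFinset (fun _ : Fin (n + 1) => G x)).filter (fun y => ¬ good y)).card : ℝ)
        = ((G x).card : ℝ) ^ (n + 1) := by
      rw [← hpi]
      exact_mod_cast hcardsum
    have hnot : ((Fintype.piFinset (fun _ : Fin (n + 1) => G x)).filter (fun y => ¬ good y))
        = ((Fintype.piFinset (fun _ : Fin (n + 1) => G x)).filter (fun y => ENNReal.ofReal ω <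
    MeasureTheory.volume {τ : Fin n → ℝ | (∀ i, 0 ≤ τ i ∧ τ i ≤ 1) ∧ Ev k L n (A * t) d c τ y ∧
      ∃ j, τ j ∉ T1 Qm η})) := by
      refine Finset.filter_congr (fun y _ => ?_)
      simp only [hgood, not_le]
    rw [hnot] at hcs
    have hTpow : T ^ (n + 1) ≤ ((G x).card : ℝ) ^ (n + 1) := pow_le_pow_left₀ hT.le (hGc x hx) _
    linarith
  set S : Finset (Fin (n + 1) → Fin d → ℤ) := (Fintype.piFinset (fun _ : Fin (n + 1) => F)).filter good with hS
  set R : (Fin d → ℤ) → (Fin (n + 1) → Fin d → ℤ) → Prop := fun x y => ∀ j, y j ∈ G x with hR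
  have hdc := Finset.sum_card_bipartiteAbove_eq_sum_card_bipartiteBelow (s := X) (t := S) R
  set B : ℝ := (L : ℝ) ^ (d - A * t) * c ^ (A * t) + (L : ℝ) ^ d * ω + (L : ℝ) ^ d * (4 * Qm * η) ^ n with hB
  have hB0 : 0 ≤ B := by positivity
  have h2 : ∀ y ∈ S, ((Finset.bipartiteBelow R X y).card : ℝ) ≤ B := by
    intro y hy
    have hvg := vol_good hOR hMS hAt c ω η Qm hη0 hω0.le hc0 y (Finset.mem_filter.1 hy).2
    refine le_trans (Nat.cast_le.2 (Finset.card_le_card ?_)) hvg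
    intro x hx
    rw [Finset.mem_bipartiteBelow] at hx
    rw [Finset.mem_filter]
    refine ⟨hX hx.1, fun j => ?_⟩
    rw [(Finset.mem_filter.1 (hx.2 j)).2, (Finset.mem_filter.1 (hx.2 0)).2]
  have h3 : ∀ x ∈ X, T ^ (n + 1) / 2 ≤ ((Finset.bipartiteAbove R S x).card : ℝ) := by
    intro x hx
    refine (h1 x hx).trans (Nat.cast_le.2 (Finset.card_le_card ?_))
    intro y hy
    rw [Finset.mem_filter] at hy
    rw [Finset.mem_bipartiteAbove]
    have hyG : ∀ j, y j ∈ G x := fun j => (Fintype.mem_piFinset.1 hy.1) j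
    refine ⟨Finset.mem_filter.2 ⟨Fintype.mem_piFinset.2 (fun j => (Finset.mem_filter.1 (hyG j)).1), hy.2⟩, hyG⟩
  have hScard : (S.card : ℝ) ≤ (F.card : ℝ) ^ (n + 1) := by
    have : S.card ≤ F.card ^ (n + 1) := by
      refine (Finset.card_filter_le _ _).trans ?_
      rw [Fintype.card_piFinset]
      simp
    exact_mod_cast this
  have h4 : T ^ (n + 1) / 2 * X.card ≤ (F.card : ℝ) ^ (n + 1) * B := by
    calc T ^ (n + 1) / 2 * X.card = ∑ x ∈ X, T ^ (n + 1) / 2 := by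
          rw [Finset.sum_const, nsmul_eq_mul, mul_comm]
      _ ≤ ∑ x ∈ X, ((Finset.bipartiteAbove R S x).card : ℝ) := Finset.sum_le_sum h3
      _ = ∑ y ∈ S, ((Finset.bipartiteBelow R X y).card : ℝ) := by exact_mod_cast hdc
      _ ≤ ∑ y ∈ S, B := Finset.sum_le_sum h2
      _ = S.card * B := by rw [Finset.sum_const, nsmul_eq_mul]
      _ ≤ (F.card : ℝ) ^ (n + 1) * B := mul_le_mul_of_nonneg_right hScard hB0
  have hB1 : (L : ℝ) ^ (d - A * t) * c ^ (A * t) ≤ (L : ℝ) ^ d * (1 / M) := by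
    have e1 : c ^ (A * t) = ((2 : ℝ) ^ (n + 1)) ^ (A * t) / H ^ t * (L : ℝ) ^ (A * t) := by
      rw [hc, mul_pow, mul_pow]
      have : δ ^ (A * t) = 1 / H ^ t := by
        rw [pow_mul, hδA, div_pow, one_pow]
      rw [this]
      ring
    have e2 : (L : ℝ) ^ (d - A * t) * c ^ (A * t) = (L : ℝ) ^ d * (((2 : ℝ) ^ (n + 1)) ^ (A * t) / H ^ t) := by
      rw [e1]
      have : (L : ℝ) ^ d = (L : ℝ) ^ (d - A * t) * (L : ℝ) ^ (A * t) := by
        rw [← pow_add, Nat.sub_add_cancel hAt]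
      rw [this]
      ring
    rw [e2]
    refine mul_le_mul_of_nonneg_left ?_ (by positivity)
    rw [div_le_div_iff₀ (by positivity) hM0, one_mul]
    rw [le_div_iff₀ hM0] at hc5
    exact hc5
  have hB2 : 4 * (Qm : ℝ) * η ≤ 192 * k * (A : ℝ) ^ 4 * N ^ 2 * H ^ 6 / (L : ℝ) ^ k := by
    have hfl : (Qm : ℝ) ≤ 12 * k * (A * H) ^ 2 / (1 / (N * H)) := Nat.floor_le (by positivity)
    have e : (L : ℝ) ^ k = (L : ℝ) ^ (k - 1) * L := by
      rw [← pow_succ]
      congr 1
      omega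
    calc 4 * (Qm : ℝ) * η ≤ 4 * (12 * k * (A * H) ^ 2 / (1 / (N * H))) * η := by
          refine mul_le_mul_of_nonneg_right ?_ hη0
          linarith
      _ = 192 * k * (A : ℝ) ^ 4 * N ^ 2 * H ^ 6 / (L : ℝ) ^ k := by
          rw [hη, e]
          field_simp
          ring
  have hB3 : (4 * (Qm : ℝ) * η) ^ n ≤ (192 * k * (A : ℝ) ^ 4 * N ^ 2 * H ^ 6 / (L : ℝ) ^ k) ^ n :=
    pow_le_pow_left₀ (by positivity) hB2 _
  have hBfin : B ≤ (L : ℝ) ^ d * (2 / M + (192 * k * (A : ℝ) ^ 4 * N ^ 2 * H ^ 6 / (L : ℝ) ^ k) ^ n) := by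
    have h5 := mul_le_mul_of_nonneg_left hB3 (show (0 : ℝ) ≤ (L : ℝ) ^ d by positivity)
    have h6 : (L : ℝ) ^ d * (2 / M) = (L : ℝ) ^ d * (1 / M) + (L : ℝ) ^ d * (1 / M) := by ring
    rw [mul_add, h6]
    linarith
  have h7 := mul_le_mul_of_nonneg_left hBfin (show (0 : ℝ) ≤ (F.card : ℝ) ^ (n + 1) by positivity)
  have h8 : 2 * (F.card : ℝ) ^ (n + 1) * (L : ℝ) ^ d *
      (2 / M + (192 * k * (A : ℝ) ^ 4 * N ^ 2 * H ^ 6 / (L : ℝ) ^ k) ^ n)
      = 2 * ((F.card : ℝ) ^ (n + 1) * ((L : ℝ) ^ d *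
        (2 / M + (192 * k * (A : ℝ) ^ 4 * N ^ 2 * H ^ 6 / (L : ℝ) ^ k) ^ n))) := by ring
  rw [h8]
  linarith

end Pool.Agent.H97.KS
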